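import Mathlib
import Pool.Agent.P.MP_4ef411_nt.Pell

/-!
A square relation and the Dickson polynomial of degree six split a cubic in four parts.
-/

set_option autoImplicit false

open Polynomial

namespace Pool.Agent.P.MP_4ef411_nt.Ps

/-- The norm of `e0 + e1 X + e2 X^2` modulo `X^3 + p X + q`. -/
def nr {R : Type*} [CommRing R] (p q e0 e1 e2 : R) : R :=
  e0 ^ 3 - 2 * p * e0 ^ 2 * e2 + e0 * (p * e1 ^ 2 + 3 * q * e1 * e2 + p ^ 2 * e2 ^ 2) -
    q * (e1 ^ 3 + p * e1 * e2 ^ 2 - q * e2 ^ 3)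

theorem nr_eq {p q x y z : ℂ} (h : 0 = -(x + y + z)) (hp : p = x * y + x * z + y * z)
    (hq : q = -(x * y * z)) (e0 e1 e2 : ℂ) :
    nr p q e0 e1 e2 = (e0 + e1 * x + e2 * x ^ 2) * (e0 + e1 * y + e2 * y ^ 2) *
      (e0 + e1 * z + e2 * z ^ 2) := by
  have hz : z = -x - y := by linear_combination h
  subst hz
  unfold nr
  rw [hp, hq]
  ring

/-- The numerator of the sextic map. -/
def num {R : Type*} [CommRing R] (q A B t : R) : R :=
  4 * (t ^ 2 - B) ^ 3 - 3 * B ^ 2 * (t ^ 2 - B) + 4 * q * A ^ 3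

theorem key {p q A B x e t : ℂ} (hx : x ^ 3 + p * x + q = 0) (he : e ^ 2 = A * x + B) :
    (t - e) * (t + e) * (2 * t ^ 2 + 2 * t * e + 2 * (A * x + B) - 3 * B) *
      (2 * t ^ 2 - 2 * t * e + 2 * (A * x + B) - 3 * B) =
      num q A B t + A * (3 * B ^ 2 + 4 * p * A ^ 2) * x := by
  have h1 : (t - e) * (t + e) = t ^ 2 - (A * x + B) := by linear_combination -he
  have h2 : (2 * t ^ 2 + 2 * t * e + 2 * (A * x + B) - 3 * B) *
      (2 * t ^ 2 - 2 * t * e + 2 * (A * x + B) - 3 * B) =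
      (2 * t ^ 2 + 2 * (A * x + B) - 3 * B) ^ 2 - 4 * t ^ 2 * (A * x + B) := by
    linear_combination (-4 * t ^ 2) * he
  rw [mul_assoc, h1, h2]
  unfold num
  linear_combination (-4 * A ^ 3) * hx

theorem facC {p q A B e0 e1 e2 : ℂ}
    (he : ∀ x : ℂ, x ^ 3 + p * x + q = 0 → (e0 + e1 * x + e2 * x ^ 2) ^ 2 = A * x + B) (t : ℂ) :
    num q A B t ^ 3 + p * (A * (3 * B ^ 2 + 4 * p * A ^ 2)) ^ 2 * num q A B t -
      q * (A * (3 * B ^ 2 + 4 * p * A ^ 2)) ^ 3 =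
    nr p q (t - e0) (-e1) (-e2) * nr p q (t + e0) e1 e2 *
      nr p q (2 * t ^ 2 + 2 * e0 * t - B) (2 * e1 * t + 2 * A) (2 * e2 * t) *
      nr p q (2 * t ^ 2 - 2 * e0 * t - B) (-2 * e1 * t + 2 * A) (-2 * e2 * t) := by
  obtain ⟨x, y, z, h, hp, hq⟩ := exists_roots 0 p q
  have hx : x ^ 3 + p * x + q = 0 := by rw [hp, hq]; linear_combination (x ^ 2) * h
  have hy : y ^ 3 + p * y + q = 0 := by rw [hp, hq]; linear_combination (y ^ 2) * h
  have hz : z ^ 3 + p * z + q = 0 := by rw [hp, hq]; linear_combination (z ^ 2) * h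
  have kx := key (t := t) hx (he x hx)
  have ky := key (t := t) hy (he y hy)
  have kz := key (t := t) hz (he z hz)
  rw [nr_eq h hp hq, nr_eq h hp hq, nr_eq h hp hq, nr_eq h hp hq]
  generalize num q A B t = W at kx ky kz ⊢
  generalize A * (3 * B ^ 2 + 4 * p * A ^ 2) = D at kx ky kz ⊢
  have e : W ^ 3 + p * D ^ 2 * W - q * D ^ 3 = (W + D * x) * (W + D * y) * (W + D * z) := by
    rw [hp, hq]
    linear_combination (-W ^ 2 * D) * h
  have r : ∀ a1 a2 a3 a4 b1 b2 b3 b4 c1 c2 c3 c4 : ℂ,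
      a1 * a2 * a3 * a4 * (b1 * b2 * b3 * b4) * (c1 * c2 * c3 * c4) =
      a1 * b1 * c1 * (a2 * b2 * c2) * (a3 * b3 * c3) * (a4 * b4 * c4) := by
    intros
    ring
  rw [e, ← kx, ← ky, ← kz, r]
  congr 1
  · congr 1
    · congr 1
      · congr 1
        · congr 1 <;> ring
        · ring
      · congr 1
        · congr 1 <;> ring
        · ring
    · congr 1
      · congr 1 <;> ring
      · ring
  · congr 1
    · congr 1 <;> ring
    · ring

theorem facZ (p q r s t A B : ℤ) (hA : A = -4 * s * (r ^ 3 + p * r * s ^ 2 + q * s ^ 3))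
    (hB : B = (p * s ^ 2 - r ^ 2) ^ 2 - 8 * q * r * s ^ 3) :
    num q A B t ^ 3 + p * (A * (3 * B ^ 2 + 4 * p * A ^ 2)) ^ 2 * num q A B t -
      q * (A * (3 * B ^ 2 + 4 * p * A ^ 2)) ^ 3 =
    nr p q (t - (p * s ^ 2 - r ^ 2)) (-(2 * r * s)) (-(2 * s ^ 2)) *
      nr p q (t + (p * s ^ 2 - r ^ 2)) (2 * r * s) (2 * s ^ 2) *
      nr p q (2 * t ^ 2 + 2 * (p * s ^ 2 - r ^ 2) * t - B) (2 * (2 * r * s) * t + 2 * A)
        (2 * (2 * s ^ 2) * t) *
      nr p q (2 * t ^ 2 - 2 * (p * s ^ 2 - r ^ 2) * t - B) (-2 * (2 * r * s) * t + 2 * A)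
        (-2 * (2 * s ^ 2) * t) := by
  have h := facC (p := (p : ℂ)) (q := q) (A := A) (B := B) (e0 := p * s ^ 2 - r ^ 2)
    (e1 := 2 * r * s) (e2 := 2 * s ^ 2) (fun x hx => by
      rw [hA, hB]
      push_cast
      linear_combination (4 * (s : ℂ) ^ 4 * x + 8 * r * s ^ 3) * hx) t
  unfold num nr at h ⊢
  exact_mod_cast h

theorem nr_deg (p q : ℤ) {e0 e1 e2 : ℤ[X]} {d : ℕ} (h0 : e0.natDegree ≤ d)
    (h1 : e1.natDegree ≤ d) (h2 : e2.natDegree ≤ d) :
    (nr (C p) (C q) e0 e1 e2).natDegree ≤ 3 * d := by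
  unfold nr
  compute_degree
  omega

theorem nr_eval (p q : ℤ) (e0 e1 e2 : ℤ[X]) (x : ℤ) :
    (nr (C p) (C q) e0 e1 e2).eval x = nr p q (e0.eval x) (e1.eval x) (e2.eval x) := by
  simp [nr]

/-- The second substitution. -/
theorem stage (u v : ℤ[X]) (hu : u.natDegree = 6) (hv : v.natDegree = 6) :
    (X + u * v).natDegree = 12 ∧
      ∀ h : ℤ[X], Irreducible h → h ∣ u.comp (X + u * v) → h.natDegree ≤ 66 := by
  have u0 : u ≠ 0 := fun e => by simp [e] at hu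
  have v0 : v ≠ 0 := fun e => by simp [e] at hv
  have huv : (u * v).natDegree = 12 := by rw [natDegree_mul u0 v0, hu, hv]
  have hg : (X + u * v).natDegree = 12 := by
    rw [natDegree_add_eq_right_of_natDegree_lt (by rw [huv]; simp), huv]
  refine ⟨hg, fun h hh hd => ?_⟩
  have h1 : u ∣ u.comp (X + u * v) := by
    have h2 : (X + u * v) - X ∣ u.comp (X + u * v) - u.comp X := by
      simpa only [comp, eval₂_eq_eval_map] using
        sub_dvd_eval_sub (X + u * v) X (u.map C)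
    rw [add_sub_cancel_left, comp_X] at h2
    exact (dvd_sub_self_right).1 ((dvd_mul_right u v).trans h2) |> fun h3 => h3
  obtain ⟨w, hw⟩ := h1
  have hc : (u.comp (X + u * v)).natDegree = 72 := by rw [natDegree_comp, hu, hg]
  have w0 : w ≠ 0 := fun e => by simp [hw, e] at hc
  have hwd : w.natDegree = 66 := by
    rw [hw, natDegree_mul u0 w0, hu] at hc
    omega
  rw [hw] at hd
  rcases hh.prime.dvd_or_dvd hd with h3 | h3
  · have := natDegree_le_of_dvd h3 u0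
    omega
  · have := natDegree_le_of_dvd h3 w0
    omega

end Pool.Agent.P.MP_4ef411_nt.Ps
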