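import Mathlib
import Pool.Agent.P.MP_4ef411_nt.Ps.Fac

/-!
The congruence that makes the sextic map integral.
-/

set_option autoImplicit false

namespace Pool.Agent.P.MP_4ef411_nt.Ps

theorem num_sub {R : Type*} [CommRing R] (q A B x y : R) : x - y ∣ num q A B x - num q A B y :=
  ⟨(x + y) * (4 * ((x ^ 2 - B) ^ 2 + (x ^ 2 - B) * (y ^ 2 - B) + (y ^ 2 - B) ^ 2) - 3 * B ^ 2), by
    unfold num
    ring⟩

theorem crt {Φ : ℤ → ℤ} (hΦ : ∀ x y, x - y ∣ Φ x - Φ y) {m n : ℤ} (h : IsCoprime m n)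
    (hm : ∃ x, m ∣ Φ x) (hn : ∃ y, n ∣ Φ y) : ∃ z, m * n ∣ Φ z := by
  obtain ⟨x, hx⟩ := hm
  obtain ⟨y, hy⟩ := hn
  obtain ⟨a, b, hab⟩ := id h
  refine ⟨a * m * y + b * n * x, h.mul_dvd ?_ ?_⟩
  · have h1 : m ∣ a * m * y + b * n * x - x := ⟨a * y - a * x, by linear_combination x * hab⟩
    simpa using (h1.trans (hΦ _ _)).add hx
  · have h1 : n ∣ a * m * y + b * n * x - y := ⟨b * x - b * y, by linear_combination y * hab⟩
    simpa using (h1.trans (hΦ _ _)).add hy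

theorem root_mod {R : Type*} [CommRing R] {p q m k g r v v' w : R} (hw : v * w = 1)
    (hT : r ^ 2 + 3 * p * v ^ 2 = 0) (hu : g * r = m ^ 3 - 8 * p * m * k ^ 2 + q * k ^ 3)
    (hv : g * v = k * (3 * m ^ 2 - 2 * p * k ^ 2)) (hk : v = k * v') :
    ((m - k * r * w) * v' * w) ^ 3 + p * ((m - k * r * w) * v' * w) + q = 0 := by
  have h1 : k * (v' * w) = 1 := by rw [← hw, hk]; ring
  have h2 : (r * w) ^ 2 = -3 * p := by
    linear_combination w ^ 2 * hT - 3 * p * (v * w + 1) * hw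
  have h3 : (m - k * r * w) ^ 3 + p * (m - k * r * w) * k ^ 2 + q * k ^ 3 = 0 := by
    linear_combination (3 * m * k ^ 2 - k ^ 3 * (r * w)) * h2 - hu + (r * w) * hv - g * r * hw
  generalize m - k * r * w = z at h3 ⊢
  rw [mul_assoc z]
  generalize v' * w = j at h1 ⊢
  linear_combination j ^ 3 * h3 - (p * z * j * (k * j + 1) + q * ((k * j) ^ 2 + k * j + 1)) * h1

theorem exists_root {p q m k g r v : ℤ} (hc : IsCoprime (r ^ 2 + 3 * p * v ^ 2) v)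
    (hu : g * r = m ^ 3 - 8 * p * m * k ^ 2 + q * k ^ 3)
    (hv : g * v = k * (3 * m ^ 2 - 2 * p * k ^ 2)) (hk : k ∣ v) :
    ∃ x, r ^ 2 + 3 * p * v ^ 2 ∣ x ^ 3 + p * x + q := by
  obtain ⟨v', hk⟩ := hk
  obtain ⟨a, w, haw⟩ := hc
  refine ⟨(m - k * r * w) * v' * w, ?_⟩
  generalize hT : r ^ 2 + 3 * p * v ^ 2 = T at haw ⊢
  let f := Ideal.Quotient.mk (Ideal.span {T})
  have h0 : f T = 0 := Ideal.Quotient.eq_zero_iff_mem.2 (Ideal.mem_span_singleton_self T)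
  rw [← Ideal.mem_span_singleton, ← Ideal.Quotient.eq_zero_iff_mem]
  have h := root_mod (p := f p) (q := f q) (m := f m) (k := f k) (g := f g) (r := f r) (v := f v)
    (v' := f v') (w := f w)
    (by
      have := congrArg f haw
      rw [map_add, map_mul, map_mul, h0, mul_zero, zero_add, map_one] at this
      rw [mul_comm, this])
    (by
      have := congrArg f hT
      rw [h0] at this
      simpa only [map_add, map_mul, map_pow, map_ofNat] using this)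
    (by simpa only [map_add, map_sub, map_mul, map_pow, map_ofNat] using congrArg f hu)
    (by simpa only [map_add, map_sub, map_mul, map_pow, map_ofNat] using congrArg f hv)
    (by simpa only [map_mul] using congrArg f hk)
  simpa only [map_add, map_sub, map_mul, map_pow] using h

theorem cop_of {x y a c : ℤ} (h : IsCoprime a y) (e : x = a + y * c) : IsCoprime x y := by
  rw [e]
  exact h.add_mul_left_left c

theorem cong {p q b M r v x A B : ℤ} (hc : IsCoprime r v)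
    (hk : 6 * M * (4 * p ^ 3 + 27 * q ^ 2) ∣ v)
    (hx : r ^ 2 + 3 * p * v ^ 2 ∣ x ^ 3 + p * x + q)
    (hA : A = -4 * (3 * v) * (r ^ 3 + p * r * (3 * v) ^ 2 + q * (3 * v) ^ 3))
    (hB : B = (p * (3 * v) ^ 2 - r ^ 2) ^ 2 - 8 * q * r * (3 * v) ^ 3) :
    ∃ t, A * (3 * B ^ 2 + 4 * p * A ^ 2) * M ∣
      num q A B t + A * (3 * B ^ 2 + 4 * p * A ^ 2) * b := by
  obtain ⟨F, hF⟩ : ∃ F, F = r ^ 3 + p * r * (3 * v) ^ 2 + q * (3 * v) ^ 3 := ⟨_, rfl⟩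
  obtain ⟨T, hT⟩ : ∃ T, T = r ^ 2 + 3 * p * v ^ 2 := ⟨_, rfl⟩
  obtain ⟨N, hN⟩ : ∃ N, N = 3 * (-3 * T) ^ 3 - 48 * r * F * (-3 * T) - 64 * F ^ 2 := ⟨_, rfl⟩
  have hB' : B = (-3 * T) ^ 2 - 8 * r * F := by rw [hB, hT, hF]; ring
  have hA' : A = -12 * v * F := by rw [hA, hF]; ring
  have hL : 3 * B ^ 2 + 4 * p * A ^ 2 = -3 * T * N := by
    rw [hB', hA', hN]
    linear_combination (-192 * F ^ 2) * hT
  have h6 : (6 : ℤ) ∣ v := ((dvd_mul_right 6 M).mul_right _).trans hk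
  have h2 : (2 : ℤ) ∣ v := (by norm_num : (2 : ℤ) ∣ 6).trans h6
  have h3 : (3 : ℤ) ∣ v := (by norm_num : (3 : ℤ) ∣ 6).trans h6
  have hD : 4 * p ^ 3 + 27 * q ^ 2 ∣ v := (Dvd.intro_left _ rfl).trans hk
  have cF : IsCoprime F v :=
    cop_of (hc.pow_left (m := 3)) (c := 9 * p * r * v + 27 * q * v ^ 2) (by rw [hF]; ring)
  have cT : IsCoprime T v := cop_of (hc.pow_left (m := 2)) (c := 3 * p * v) (by rw [hT]; ring)
  have cN : IsCoprime N v := by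
    obtain ⟨c, hc'⟩ : v ∣ N - -r ^ 6 := by
      have e1 : v ∣ F - r ^ 3 := ⟨9 * p * r * v + 27 * q * v ^ 2, by rw [hF]; ring⟩
      have e2 : v ∣ T - r ^ 2 := ⟨3 * p * v, by rw [hT]; ring⟩
      exact dvd_of_eq ((e1.mul_right (144 * r * T - 64 * (F + r ^ 3))).add
        (e2.mul_right (144 * r ^ 4 - 81 * (T ^ 2 + T * r ^ 2 + r ^ 4)))) (by rw [hN]; ring)
    exact cop_of (hc.pow_left (m := 6)).neg_left (c := c) (by linear_combination hc')
  have cFT : IsCoprime F T := by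
    have e1 : IsCoprime F ((4 * p ^ 3 + 27 * q ^ 2) * (3 * v) ^ 4) :=
      (cF.of_isCoprime_of_dvd_right hD).mul_right
        ((cF.of_isCoprime_of_dvd_right h3).mul_right cF).pow_right
    have e2 : (4 * p ^ 3 + 27 * q ^ 2) * (3 * v) ^ 4 =
        3 * (6 * p * r ^ 2 - 9 * q * r * (3 * v) + 4 * p ^ 2 * (3 * v) ^ 2) * T +
          F * -(18 * p * r - 27 * q * (3 * v)) := by
      rw [hF, hT]
      ring
    rw [e2] at e1
    exact e1.of_add_mul_left_right.of_mul_right_right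
  have cNF : IsCoprime N F := by
    have e1 : IsCoprime (-(3 ^ 4 * T ^ 3)) F :=
      ((cF.of_isCoprime_of_dvd_right h3).symm.pow_left.mul_left cFT.symm.pow_left).neg_left
    exact cop_of e1 (c := 144 * r * T - 64 * F) (by rw [hN]; ring)
  have cNT : IsCoprime N T := by
    have e1 : IsCoprime (-(2 ^ 6 * F ^ 2)) T :=
      ((cT.of_isCoprime_of_dvd_right h2).symm.pow_left.mul_left cFT.pow_left).neg_left
    exact cop_of e1 (c := 144 * r * F - 81 * T ^ 2) (by rw [hN]; ring)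
  have c2 : ∀ {y : ℤ}, IsCoprime y v → IsCoprime (6 * v ^ 2) y := fun h =>
    (h.of_isCoprime_of_dvd_right h6).symm.mul_left h.symm.pow_left
  have hΦ : ∀ x y : ℤ, x - y ∣ (num q A B x + A * (3 * B ^ 2 + 4 * p * A ^ 2) * b) -
      (num q A B y + A * (3 * B ^ 2 + 4 * p * A ^ 2) * b) := fun x y => by
    rw [add_sub_add_right_eq_sub]
    exact num_sub q A B x y
  have s1 : ∃ t, 6 * v ^ 2 ∣ num q A B t + A * (3 * B ^ 2 + 4 * p * A ^ 2) * b := by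
    refine ⟨r ^ 2 - 6 * v * r * b, ?_⟩
    obtain ⟨W, hW⟩ : ∃ W, (r ^ 2 - 6 * v * r * b) ^ 2 - B = A * b + 2 * v ^ 2 * W :=
      ⟨18 * r ^ 2 * b ^ 2 + 9 * p * r ^ 2 + 108 * q * r * v - 81 * p ^ 2 * (v ^ 2 / 2) +
        6 * b * v * (9 * p * r + 27 * q * v), by
        obtain ⟨v', rfl⟩ := h2
        rw [hA, hB, show (2 * v') ^ 2 / 2 = 2 * v' ^ 2 by
          rw [show (2 * v') ^ 2 = 2 * (2 * v' ^ 2) by ring, Int.mul_ediv_cancel_left _ two_ne_zero]]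
        ring⟩
    obtain ⟨v', hv'⟩ := h3
    unfold num
    rw [hW, hA', hv']
    exact ⟨16 * v' * (-6 * F * b + 3 * v' * W) ^ 3 - B ^ 2 * W - 3456 * v' * F ^ 3 * (q + p * b),
      by ring⟩
  have s2 : ∃ t, F ∣ num q A B t + A * (3 * B ^ 2 + 4 * p * A ^ 2) * b := by
    refine ⟨-3 * T, ?_⟩
    have e1 : (-3 * T) ^ 2 - B = 8 * r * F := by rw [hB']; ring
    unfold num
    rw [e1]
    generalize 3 * B ^ 2 + 4 * p * A ^ 2 = L
    rw [hA']
    exact ⟨2048 * r ^ 3 * F ^ 2 - 24 * B ^ 2 * r - 6912 * q * v ^ 3 * F ^ 2 - 12 * v * L * b,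
      by ring⟩
  have s3 : ∃ t, T ∣ num q A B t + A * (3 * B ^ 2 + 4 * p * A ^ 2) * b := by
    rw [← hT] at hx
    refine ⟨p * (3 * v) ^ 2 - r ^ 2 + 2 * r * (3 * v) * x + 2 * (3 * v) ^ 2 * x ^ 2, ?_⟩
    generalize ht : p * (3 * v) ^ 2 - r ^ 2 + 2 * r * (3 * v) * x + 2 * (3 * v) ^ 2 * x ^ 2 = t
    have e1 : T ∣ t ^ 2 - B - A * x :=
      dvd_of_eq (hx.mul_left (4 * (3 * v) ^ 4 * x + 8 * r * (3 * v) ^ 3)) (by
        rw [← ht, hA, hB]
        ring)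
    have e2 : T ∣ 3 * B ^ 2 + 4 * p * A ^ 2 := ⟨-3 * N, by rw [hL]; ring⟩
    unfold num
    generalize t ^ 2 - B = Z at e1 ⊢
    exact dvd_of_eq (((e1.mul_right (4 * (Z ^ 2 + Z * (A * x) + (A * x) ^ 2) - 3 * B ^ 2)).add
      (hx.mul_left (4 * A ^ 3))).add (e2.mul_left (A * (b - x)))) (by ring)
  have s4 : ∃ t, N ∣ num q A B t + A * (3 * B ^ 2 + 4 * p * A ^ 2) * b := by
    have c2N : IsCoprime N 2 := cN.of_isCoprime_of_dvd_right h2
    obtain ⟨a, w, haw⟩ := id c2N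
    refine ⟨-3 * T * w, ?_⟩
    rw [hL]
    refine dvd_add ?_ ⟨A * (-3 * T) * b, by ring⟩
    refine (c2N.pow_right (n := 4)).dvd_of_dvd_mul_left ?_
    have e1 : N ∣ 4 * ((-3 * T * w) ^ 2 - B) - ((-3 * T) ^ 2 - 4 * B) :=
      ⟨-9 * T ^ 2 * a * (2 * w + 1), by linear_combination (9 * T ^ 2 * (2 * w + 1)) * haw⟩
    have e2 : q * (3 * v) ^ 3 = F - 3 * r * T + 2 * r ^ 3 := by rw [hF, hT]; ring
    have e3 : N ∣ ((-3 * T) ^ 2 - 4 * B) ^ 3 - 12 * B ^ 2 * ((-3 * T) ^ 2 - 4 * B) +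
        64 * q * A ^ 3 :=
      ⟨3 * (-3 * T) ^ 3 + 16 * r * F * (-3 * T) + 64 * F ^ 2, by
        rw [hA', hB', hN]
        linear_combination (-4096 * F ^ 3) * e2⟩
    unfold num
    generalize (-3 * T * w) ^ 2 - B = Z at e1 ⊢
    generalize (-3 * T) ^ 2 - 4 * B = Y at e1 e3 ⊢
    exact dvd_of_eq ((e1.mul_right ((4 * Z) ^ 2 + 4 * Z * Y + Y ^ 2 - 12 * B ^ 2)).add e3) (by ring)
  obtain ⟨t, ht⟩ := crt hΦ (((c2 cN).mul_left cNF.symm).mul_left cNT.symm)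
    (crt hΦ ((c2 cT).mul_left cFT) (crt hΦ (c2 cF) s1 s2) s3) s4
  refine ⟨t, Dvd.dvd.trans ?_ ht⟩
  obtain ⟨c, hc⟩ := hk
  refine ⟨(4 * p ^ 3 + 27 * q ^ 2) * c, ?_⟩
  rw [hL, hA']
  linear_combination (6 * v * F * T * N) * hc

end Pool.Agent.P.MP_4ef411_nt.Ps
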