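import Mathlib
import Pool.Agent.P.MP_4ef411_nt.Ps.Cong

/-!
The choice of the parameters and the integral sextic.
-/

set_option autoImplicit false

open Polynomial

namespace Pool.Agent.P.MP_4ef411_nt.Ps

theorem step {c b x s : ℤ} (hc : 0 < c) (hx : |b| < x) (hs : c ≤ s) : c ≤ s * x + b := by
  have h1 := neg_abs_le b
  have h2 := abs_nonneg b
  nlinarith

theorem exists_rv (p q k K : ℤ) (hk : 0 < k) : ∃ m g r v : ℤ, IsCoprime r v ∧
    g * r = m ^ 3 - 8 * p * m * k ^ 2 + q * k ^ 3 ∧ g * v = k * (3 * m ^ 2 - 2 * p * k ^ 2) ∧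
    k ∣ v ∧ 0 < v ∧ K * v ≤ r := by
  obtain ⟨j, hj⟩ : ∃ j, j = |-3 * K * k| + |-8 * p * k ^ 2| + |q * k ^ 3 + 2 * K * p * k ^ 3| +
    |-2 * p * k ^ 2| := ⟨_, rfl⟩
  have a1 := abs_nonneg (-3 * K * k)
  have a2 := abs_nonneg (-8 * p * k ^ 2)
  have a3 := abs_nonneg (q * k ^ 3 + 2 * K * p * k ^ 3)
  have a4 := abs_nonneg (-2 * p * k ^ 2)
  obtain ⟨m, hm⟩ : ∃ m, m = 1 + k * j := ⟨_, rfl⟩
  have hjm : j < m := by nlinarith
  have b1 := step (b := q * k ^ 3 + 2 * K * p * k ^ 3) (x := m) one_pos (by linarith)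
    (step (b := -8 * p * k ^ 2) (x := m) one_pos (by linarith)
      (step (b := -3 * K * k) (x := m) one_pos (by linarith) le_rfl))
  have b2 := step (b := -2 * p * k ^ 2) (x := m) (s := 3 * m) one_pos (by linarith) (by linarith)
  obtain ⟨u, hu⟩ : ∃ u, u = m ^ 3 - 8 * p * m * k ^ 2 + q * k ^ 3 := ⟨_, rfl⟩
  obtain ⟨w, hw⟩ : ∃ w, w = k * (3 * m ^ 2 - 2 * p * k ^ 2) := ⟨_, rfl⟩
  have w0 : 0 < w := by
    rw [hw]
    exact mul_pos hk (by linarith)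
  have uw : K * w ≤ u := by
    rw [hu, hw]
    linarith
  have g0 : 0 < Int.gcd u w := Int.gcd_pos_of_ne_zero_right u w0.ne'
  obtain ⟨r, v, hc, hr, hv⟩ := Int.exists_gcd_one g0
  have g1 : (0 : ℤ) < Int.gcd u w := by exact_mod_cast g0
  generalize (Int.gcd u w : ℤ) = g at hr hv g1
  have cu : IsCoprime (r * g) k := by
    rw [← hr]
    exact cop_of isCoprime_one_left
      (c := 3 * j + 3 * k * j ^ 2 + k ^ 2 * j ^ 3 - 8 * p * m * k + q * k ^ 2) (by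
        rw [hu]
        linear_combination (m ^ 2 + m * (1 + k * j) + (1 + k * j) ^ 2) * hm)
  refine ⟨m, g, r, v, Int.isCoprime_iff_gcd_eq_one.2 hc, by rw [← hu, hr, mul_comm],
    by rw [← hw, hv, mul_comm], ?_, ?_, ?_⟩
  · exact cu.of_mul_left_right.symm.dvd_of_dvd_mul_right (hv ▸ hw ▸ dvd_mul_right _ _)
  · exact (mul_pos_iff_of_pos_right g1).1 (hv ▸ w0)
  · refine le_of_mul_le_mul_right ?_ g1
    rw [mul_assoc, ← hv, ← hr]
    exact uw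

theorem sign {p q r s A B : ℤ} (hs : 0 < s) (hr : 20 * (1 + |p| + |q|) * s ≤ r)
    (hA : A = -4 * s * (r ^ 3 + p * r * s ^ 2 + q * s ^ 3))
    (hB : B = (p * s ^ 2 - r ^ 2) ^ 2 - 8 * q * r * s ^ 3) :
    A * (3 * B ^ 2 + 4 * p * A ^ 2) < 0 := by
  have p0 := abs_nonneg p
  have q0 := abs_nonneg q
  have h1 : 20 * s ≤ r := by nlinarith
  have h2 : 20 * (|p| * s) ≤ r := by nlinarith
  have h3 : 20 * (|q| * s) ≤ r := by nlinarith
  have r0 : 0 < r := by linarith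
  have h4 : 400 * (|p| * s ^ 2) ≤ r ^ 2 := by
    have := mul_le_mul h1 h2 (by positivity) r0.le
    linarith
  have h5 : 8000 * (|q| * s ^ 3) ≤ r ^ 3 := by
    have := mul_le_mul (mul_le_mul h1 h1 (by positivity) r0.le) h3 (by positivity) (by positivity)
    linarith
  obtain ⟨a, ha⟩ : ∃ a, a = p * s ^ 2 := ⟨_, rfl⟩
  obtain ⟨c, hc⟩ : ∃ c, c = q * s ^ 3 := ⟨_, rfl⟩
  have e1 : |a| = |p| * s ^ 2 := by rw [ha, abs_mul, abs_of_pos (pow_pos hs 2)]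
  have e2 : |c| = |q| * s ^ 3 := by rw [hc, abs_mul, abs_of_pos (pow_pos hs 3)]
  rw [← e1] at h4
  rw [← e2] at h5
  have a1 := neg_abs_le a
  have a2 := le_abs_self a
  have c1 := neg_abs_le c
  have c2 := le_abs_self c
  have r3 : 0 < r ^ 3 := pow_pos r0 3
  have r4 : 0 < r ^ 4 := pow_pos r0 4
  obtain ⟨F, hF⟩ : ∃ F, F = r ^ 3 + a * r + c := ⟨_, rfl⟩
  have F0 : 0 < F := by nlinarith
  have F1 : F ≤ 2 * r ^ 3 := by nlinarith
  have B1 : r ^ 4 ≤ 2 * B := by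
    have : B = r ^ 4 - 2 * a * r ^ 2 + a ^ 2 - 8 * c * r := by rw [hB, ha, hc]; ring
    nlinarith [sq_nonneg a, pow_pos r0 2]
  have hA' : A = -4 * s * F := by rw [hA, hF, ha, hc]; ring
  have L0 : 0 < 3 * B ^ 2 + 4 * p * A ^ 2 := by
    have e : 4 * p * A ^ 2 = 64 * a * F ^ 2 := by rw [hA', ha]; ring
    have f1 : F ^ 2 ≤ (2 * r ^ 3) ^ 2 := pow_le_pow_left₀ F0.le F1 2
    have f2 : (r ^ 4) ^ 2 ≤ (2 * B) ^ 2 := pow_le_pow_left₀ r4.le B1 2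
    have f3 : 400 * |a| * F ^ 2 ≤ r ^ 2 * (2 * r ^ 3) ^ 2 :=
      mul_le_mul h4 f1 (by positivity) (by positivity)
    have f4 : -|a| * F ^ 2 ≤ a * F ^ 2 := mul_le_mul_of_nonneg_right a1 (by positivity)
    have r8 : 0 < r ^ 8 := pow_pos r0 8
    rw [e]
    nlinarith
  refine mul_neg_of_neg_of_pos ?_ L0
  rw [hA']
  nlinarith

theorem lin_deg (t D : ℤ) : (C t + C D * X : ℤ[X]).natDegree ≤ 1 := by compute_degree

/-- The first substitution for a cubic with distinct roots. -/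
theorem first (p q b M : ℤ) (hD : 4 * p ^ 3 + 27 * q ^ 2 ≠ 0) (hM : 0 < M) :
    ∃ (c : ℤ) (g h1 h2 h3 h4 : ℤ[X]), c ≠ 0 ∧ g.natDegree = 6 ∧ 0 < g.leadingCoeff ∧
      h1.natDegree ≤ 3 ∧ h2.natDegree ≤ 3 ∧ h3.natDegree ≤ 6 ∧ h4.natDegree ≤ 6 ∧
      C c * ((C M * g + C b) ^ 3 + C p * (C M * g + C b) + C q) = h1 * h2 * h3 * h4 := by
  have k0 : 0 < |6 * M * (4 * p ^ 3 + 27 * q ^ 2)| := abs_pos.2 (by positivity)
  obtain ⟨m, g, r, v, hc, hu, hv, hk, v0, hr⟩ := exists_rv p q _ (60 * (1 + |p| + |q|)) k0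
  obtain ⟨x, hx⟩ := exists_root
    (cop_of (hc.pow_left (m := 2)) (c := 3 * p * v) (by ring)) hu hv hk
  obtain ⟨A, hA⟩ : ∃ A, A = -4 * (3 * v) * (r ^ 3 + p * r * (3 * v) ^ 2 + q * (3 * v) ^ 3) :=
    ⟨_, rfl⟩
  obtain ⟨B, hB⟩ : ∃ B, B = (p * (3 * v) ^ 2 - r ^ 2) ^ 2 - 8 * q * r * (3 * v) ^ 3 := ⟨_, rfl⟩
  obtain ⟨t, ht⟩ := cong (b := b) hc ((abs_dvd _ _).1 hk) hx hA hB
  have hs := sign (s := 3 * v) (by linarith) (by linarith) hA hB
  have fz := fun t => facZ p q r (3 * v) t A B hA hB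
  generalize 3 * v = s at fz
  generalize A * (3 * B ^ 2 + 4 * p * A ^ 2) = E at ht hs fz
  obtain ⟨D, hD⟩ : ∃ D, D = -(E * M) := ⟨_, rfl⟩
  have D0 : 0 < D := by nlinarith
  obtain ⟨τ, hτ⟩ : ∃ τ : ℤ[X], τ = C t + C D * X := ⟨_, rfl⟩
  have τ1 : τ.natDegree ≤ 1 := hτ ▸ lin_deg t D
  obtain ⟨G, hG⟩ : C D ∣ num (C q) (C A) (C B) τ + C (E * b) := by
    have e1 : C D ∣ num (C q) (C A) (C B) τ - num (C q) (C A) (C B) (C t) :=
      Dvd.dvd.trans ⟨X, by rw [hτ]; ring⟩ (num_sub _ _ _ _ _)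
    have e2 : (C D : ℤ[X]) ∣ C (num q A B t + E * b) := _root_.map_dvd C (hD ▸ neg_dvd.2 ht)
    have e3 : (C (num q A B t) : ℤ[X]) = num (C q) (C A) (C B) (C t) := by
      simp only [num, map_add, map_sub, map_mul, map_pow, map_ofNat]
    rw [map_add, e3] at e2
    have := e1.add e2
    rwa [← add_assoc, sub_add_cancel] at this
  have d6 : (num (C q) (C A) (C B) τ + C (E * b)).natDegree ≤ 6 ∧
      (num (C q) (C A) (C B) τ + C (E * b)).coeff 6 = 4 * D ^ 6 := by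
    rw [hτ]
    unfold num
    constructor
    · compute_degree
    · compute_degree!
      ring
  rw [hG, natDegree_C_mul D0.ne', coeff_C_mul] at d6
  have c6 : 0 < G.coeff 6 := (mul_pos_iff_of_pos_left D0).1 (by rw [d6.2]; positivity)
  have g6 : G.natDegree = 6 := natDegree_eq_of_le_of_coeff_ne_zero d6.1 c6.ne'
  refine ⟨-E ^ 3, G, nr (C p) (C q) (τ - C (p * s ^ 2 - r ^ 2)) (C (-(2 * r * s))) (C (-(2 * s ^ 2))),
    nr (C p) (C q) (τ + C (p * s ^ 2 - r ^ 2)) (C (2 * r * s)) (C (2 * s ^ 2)),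
    nr (C p) (C q) (C 2 * τ ^ 2 + C (2 * (p * s ^ 2 - r ^ 2)) * τ - C B)
      (C (2 * (2 * r * s)) * τ + C (2 * A)) (C (2 * (2 * s ^ 2)) * τ),
    nr (C p) (C q) (C 2 * τ ^ 2 - C (2 * (p * s ^ 2 - r ^ 2)) * τ - C B)
      (C (-2 * (2 * r * s)) * τ + C (2 * A)) (C (-2 * (2 * s ^ 2)) * τ),
    neg_ne_zero.2 (pow_ne_zero 3 hs.ne), g6, by rw [leadingCoeff, g6]; exact c6,
    nr_deg (d := 1) p q ?_ ?_ ?_, nr_deg (d := 1) p q ?_ ?_ ?_, nr_deg (d := 2) p q ?_ ?_ ?_,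
    nr_deg (d := 2) p q ?_ ?_ ?_, Polynomial.funext fun y => ?_⟩
  iterate 12 (compute_degree <;> omega)
  have e := congrArg (eval y) hG
  have e' : (num (C q) (C A) (C B) τ).eval y = num q A B (τ.eval y) := by simp [num]
  simp only [eval_add, eval_mul, eval_C, e'] at e
  simp only [eval_add, eval_sub, eval_mul, eval_pow, eval_C, nr_eval]
  rw [← fz]
  have e2 : num q A B (τ.eval y) = -E * (M * G.eval y + b) := by
    rw [hD] at e
    linear_combination e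
  rw [e2]
  ring

end Pool.Agent.P.MP_4ef411_nt.Ps
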