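import Mathlib
import Pool.Agent.P.MP_4ef411_nt.Ps.Pick

/-!
The two substitutions together.
-/

set_option autoImplicit false

open Polynomial

namespace Pool.Agent.P.MP_4ef411_nt.Ps

theorem both {P g u v w : ℤ[X]} {c : ℤ} (hg : g.natDegree = 6) (h0 : 0 < g.leadingCoeff)
    (hu : u.natDegree = 6) (hv : v.natDegree = 6) (e : C c * P.comp g = w * u * v)
    (hw : ∀ h : ℤ[X], Irreducible h → h ∣ w.comp (X + u * v) → h.natDegree ≤ 66) :
    ∃ g : ℤ[X], g.natDegree = 72 ∧ 0 < g.leadingCoeff ∧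
      ∀ h : ℤ[X], Irreducible h → h ∣ P.comp g → h.natDegree ≤ 66 := by
  obtain ⟨h12, s1⟩ := stage u v hu hv
  obtain ⟨-, s2⟩ := stage v u hv hu
  rw [mul_comm v u] at s2
  refine ⟨g.comp (X + u * v), by rw [natDegree_comp, hg, h12], ?_, fun h hh hd => ?_⟩
  · rw [leadingCoeff_comp (by omega), hg]
    refine mul_pos h0 (Even.pow_pos (by decide) (leadingCoeff_ne_zero.2 fun e0 => ?_))
    simp [e0] at h12
  · have e1 := congrArg (·.comp (X + u * v)) e
    simp only [mul_comp, C_comp, comp_assoc] at e1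
    have h1 := hd.mul_left (C c)
    rw [e1] at h1
    rcases hh.prime.dvd_or_dvd h1 with h2 | h2
    · rcases hh.prime.dvd_or_dvd h2 with h3 | h3
      exacts [hw h hh h3, s1 h hh h3]
    · exact s2 h hh h2

theorem lin6 {a : ℤ} (ha : a ≠ 0) (b : ℤ) : (C a * X ^ 6 + C b : ℤ[X]).natDegree = 6 := by
  compute_degree!

theorem pos_case (P : ℤ[X]) (hP : P.natDegree = 3) (h0 : 0 < P.coeff 3) :
    ∃ g : ℤ[X], g.natDegree = 72 ∧ 0 < g.leadingCoeff ∧
      ∀ h : ℤ[X], Irreducible h → h ∣ P.comp g → h.natDegree ≤ 66 := by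
  have e0 : P = C (P.coeff 3) * X ^ 3 + C (P.coeff 2) * X ^ 2 + C (P.coeff 1) * X + C (P.coeff 0) := by
    conv_lhs => rw [P.as_sum_range_C_mul_X_pow, hP]
    simp only [Finset.sum_range_succ, Finset.sum_range_zero]
    ring
  generalize P.coeff 3 = a at e0 h0
  generalize P.coeff 2 = b at e0
  generalize P.coeff 1 = c at e0
  generalize P.coeff 0 = d at e0
  obtain ⟨p, hp⟩ : ∃ p, p = 9 * a * c - 3 * b ^ 2 := ⟨_, rfl⟩
  obtain ⟨q, hq⟩ : ∃ q, q = 2 * b ^ 3 - 9 * a * b * c + 27 * a ^ 2 * d := ⟨_, rfl⟩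
  have e1 : ∀ g : ℤ[X], C (27 * a ^ 2) * P.comp g =
      (C (3 * a) * g + C b) ^ 3 + C p * (C (3 * a) * g + C b) + C q := fun g => by
    rw [e0, hp, hq]
    simp only [add_comp, mul_comp, pow_comp, C_comp, X_comp, map_add, map_sub, map_mul, map_pow,
      map_ofNat]
    ring
  have x6 : (X ^ 6 : ℤ[X]).natDegree = 6 := natDegree_X_pow 6
  have x0 : 0 < (X ^ 6 : ℤ[X]).leadingCoeff := by simp
  by_cases hD : 4 * p ^ 3 + 27 * q ^ 2 = 0
  · by_cases p0 : p = 0
    · have q0 : q = 0 := by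
        rw [p0] at hD
        exact pow_eq_zero_iff two_ne_zero |>.1 (by linarith)
      have l := lin6 (a := 3 * a) (by positivity) b
      refine both (c := 27 * a ^ 2) x6 x0 l l ?_ (stage _ _ l l).2
      rw [e1, p0, q0, map_zero]
      ring
    · have l := lin6 (a := 2 * p * (3 * a)) (by positivity) (2 * p * b + 3 * q)
      have l' := lin6 (a := p * (3 * a)) (by positivity) (p * b - 3 * q)
      refine both (c := 4 * p ^ 3 * (27 * a ^ 2)) x6 x0 l l' ?_ (stage _ _ l l').2
      have hD' := congrArg (C : ℤ → ℤ[X]) hD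
      rw [map_mul, mul_assoc, e1]
      simp only [map_add, map_sub, map_mul, map_pow, map_ofNat, map_zero] at hD' ⊢
      linear_combination (C p * (3 * C a * X ^ 6 + C b) + C q) * hD'
  · obtain ⟨k, g, h1, h2, h3, h4, k0, g6, g0, d1, d2, d3, d4, e⟩ :=
      first p q b (3 * a) hD (by positivity)
    rw [← e1, ← mul_assoc, ← map_mul] at e
    have d18 : (h1 * h2 * h3 * h4).natDegree = 18 := by
      rw [← e, natDegree_C_mul (by positivity), natDegree_comp, hP, g6]
    have n0 : h1 * h2 * h3 * h4 ≠ 0 := fun e' => by simp [e'] at d18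
    have n4 := right_ne_zero_of_mul n0
    have n123 := left_ne_zero_of_mul n0
    have n3 := right_ne_zero_of_mul n123
    have n12 := left_ne_zero_of_mul n123
    rw [natDegree_mul n123 n4, natDegree_mul n12 n3,
      natDegree_mul (left_ne_zero_of_mul n12) (right_ne_zero_of_mul n12)] at d18
    have d12 := (stage h3 h4 (by omega) (by omega)).1
    refine both g6 g0 (by omega) (by omega) e fun h hh hd => ?_
    have small : ∀ w : ℤ[X], w.natDegree = 3 → h ∣ w.comp (X + h3 * h4) → h.natDegree ≤ 66 :=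
      fun w hw hd => by
      have d36 : (w.comp (X + h3 * h4)).natDegree = 36 := by rw [natDegree_comp, hw, d12]
      have := natDegree_le_of_dvd hd fun e' => by simp [e'] at d36
      omega
    rw [mul_comp] at hd
    rcases hh.prime.dvd_or_dvd hd with h5 | h5
    exacts [small h1 (by omega) h5, small h2 (by omega) h5]

end Pool.Agent.P.MP_4ef411_nt.Ps
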